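import Pool.Agent.DG62.FinG

/-!
# Danzer's problem: sets covered by finitely many sets of large additive energy

The plane is `EuclideanSpace ℝ (Fin 2)`; no definition beyond Mathlib is used in the statement.
`q = (k + 1) * T`. The finite sets `F 0, ..., F k` have at most `D * r ^ 2` elements, and at least
`16 * (F i).card ^ (2 * l) / (L * r) ^ 2` of the pairs of `l`-tuples of elements of `F i` have sums at
distance at most `q * A / r`. In a closed disk of radius `r` every point of `S` lies in an exceptional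
set `E` with at most `r ^ 2 / (8 * A)` points in the disk, or in one of `T` translates of some `F i`.
If `r ≥ 64 * q * A * L * (10 ^ 4 * q ^ 2 * A * L ^ 2) ^ (2 ^ k - 1)` and
`l ≥ 256 * q ^ 3 * A * D * log (L * r)` then a compact convex set of area `A` inside the disk contains
no point of `S`.
-/

set_option autoImplicit false

open MeasureTheory Metric

namespace Pool.Agent.Results.MP_cbbe99_co.AdditiveEnergy

/-- Danzer's problem (Q1) at a finite scale for subsets of unions of translates of finite sets of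
large additive energy. -/
theorem result (k T l : ℕ) (hT : 1 ≤ T) (A D L r q : ℝ) (hA : 1 ≤ A) (hD : 1 ≤ D) (hL : 1 ≤ L)
    (hq : q = (k + 1) * T)
    (hr : 64 * q * A * L * (10 ^ 4 * q ^ 2 * A * L ^ 2) ^ (2 ^ k - 1) ≤ r)
    (hl : 256 * q ^ 3 * A * D * Real.log (L * r) ≤ l)
    (x : EuclideanSpace ℝ (Fin 2)) (S E : Set (EuclideanSpace ℝ (Fin 2)))
    -- the exceptional set
    (hE : (E ∩ closedBall x r).Finite)
    (hEn : ((E ∩ closedBall x r).ncard : ℝ) ≤ r ^ 2 / (8 * A))
    -- the sets of large energy and their translates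
    (F : Fin (k + 1) → Finset (EuclideanSpace ℝ (Fin 2)))
    (c : Fin (k + 1) → Fin T → EuclideanSpace ℝ (Fin 2))
    (hF : ∀ i, ((F i).card : ℝ) ≤ D * r ^ 2)
    (hN : ∀ i, 16 * ((F i).card : ℝ) ^ (2 * l) ≤ (L * r) ^ 2 *
      ({P : (Fin l → EuclideanSpace ℝ (Fin 2)) × (Fin l → EuclideanSpace ℝ (Fin 2)) |
        (∀ j, P.1 j ∈ F i ∧ P.2 j ∈ F i) ∧ ‖(∑ j, P.1 j) - ∑ j, P.2 j‖ ≤ q * A / r}.ncard : ℝ))
    (hS : ∀ p ∈ S ∩ closedBall x r, p ∈ E ∨ ∃ i t, ∃ a ∈ F i, p = c i t + a) :
    ∃ K : Set (EuclideanSpace ℝ (Fin 2)), Convex ℝ K ∧ IsCompact K ∧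
      volume K = ENNReal.ofReal A ∧ K ⊆ closedBall x r ∧ Disjoint K S :=
  Pool.Agent.DG62.energy_main k T l hT A D L r q hA hD hL hq hr hl x S E hE hEn c F hF
    (fun i => by rw [Pool.Agent.DG62.En_eq_ncard]; exact hN i) hS

end Pool.Agent.Results.MP_cbbe99_co.AdditiveEnergy
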