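import Pool.Agent.H18.Danzer.Main

/-!
# Danzer's problem: finite unions of almost periodic point sets, up to a set of small density

`Plane = EuclideanSpace ℝ (Fin 2)`. All densities are taken along a fixed but arbitrary sequence of
disks `B(x n, r n)` with `r n → ∞` (for instance `x n = 0`, `r n = n`):

* `DensityLE x r T d`: for every `R` and `ε > 0`, for all large `n` the disk `B(x n, r n + R)`
  contains at most `(d + ε) π (r n)²` points of `T`;
* `FiniteDensity x r T`: `∃ D, DensityLE x r T D`;
* `AlmostPeriods x r F e`: the vectors `t` such that `{p ∈ F | p + t ∉ F}` and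
  `{p ∈ F | p - t ∉ F}` both have density at most `e`;
* `RelativelyDense P`: there is `R` such that every point of the plane is within distance `R` of `P`.
-/

set_option autoImplicit false

open MeasureTheory Filter

namespace Pool.Agent.Results.MP_cbbe99_co.AlmostPeriodicUnions

open Pool.Agent.H18.Danzer

/-- Let `S` be a subset of the plane that is contained, up to a set of density at most `d`, in the
union of finitely many sets `G j` and `F i` of finite density, where each `G j` has one almost
period `c j • u ≠ 0` of defect `g j`, all in one common direction `u`, and the `e i`-almost periods of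
each `F i` are relatively dense. If `d + ∑ g j + 2 ∑ e i < 1 / A` then some compact convex set of
area `A` contains no point of `S`. -/
theorem result (x : ℕ → Plane) (r : ℕ → ℝ) (hr : Tendsto r atTop atTop)
    (A : ℝ) (hA : 0 < A) (S : Set Plane)
    (u : Plane) (hu : u ≠ 0) (m : ℕ) (G : Fin m → Set Plane) (c g : Fin m → ℝ)
    (hc : ∀ j, c j ≠ 0) (hGf : ∀ j, FiniteDensity x r (G j))
    (hG : ∀ j, DensityLE x r {p | p ∈ G j ∧ p - c j • u ∉ G j} (g j))
    (k : ℕ) (F : Fin k → Set Plane) (e : Fin k → ℝ) (hFf : ∀ i, FiniteDensity x r (F i))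
    (hF : ∀ i, RelativelyDense (AlmostPeriods x r (F i) (e i)))
    (d : ℝ) (hS : DensityLE x r (S \ ((⋃ j, G j) ∪ ⋃ i, F i)) d)
    (hlt : d + ∑ j, g j + 2 * ∑ i, e i < 1 / A) :
    ∃ K : Set Plane, Convex ℝ K ∧ IsCompact K ∧ volume K = ENNReal.ofReal A ∧ Disjoint K S :=
  main hr A hA S u hu m G c g hc hGf hG k F e hFf hF d hS hlt

end Pool.Agent.Results.MP_cbbe99_co.AlmostPeriodicUnions
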