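import Pool.Agent.H50Dz.Main
import Pool.Agent.H50Dz.Recip

/-!
# A zero-one law for directions in Danzer's problem

For a planar set `S` let `GoodSlopes S A` be the set of slopes `t` such that every rectangle of
area at least `A` whose long side has slope `t` meets `S`. Let `T` be any set of reals that is not
uniformly porous, for instance `{1, 1/2, 1/3, …}`. The following are equivalent:

1. every set of bounded density is disjoint from bounded convex sets of arbitrarily large area
   (the positive answer to Danzer's question);
2. for all `c`, `A` there is an `N` such that every set `S` which has at most `c r ^ 2` points in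
   some disks of arbitrarily large radius `r` is missed uniformly: every interval `[a, b]` of
   slopes, `b - a ≤ 1`, contains a subinterval of length `2 (b - a) / N` (around a point of
   `[a, b]`) such that every slope in it is the slope of the long side of a rectangle of area at
   least `A` which does not meet `S`; moreover the length of this side is comparable to
   `(b - a) ^ (-1/2)`;
3. `GoodSlopes S A` is a Lebesgue null set for every `S` of bounded density and every `A`;
4. `GoodSlopes S A` has empty interior for every `S` of bounded density and every `A`;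
5. for every `S` of bounded density and every `A` some rectangle of area at least `A` whose long
   side has slope in `T` is disjoint from `S`.
-/

open MeasureTheory Pool.Agent.H50Dz

theorem Pool.Agent.Results.MP_cbbe99_co.DirectionLaw.result :
    (∀ T : Set ℝ, ¬ UniformlyPorous T → List.TFAE [
      ∀ S : Set (EuclideanSpace ℝ (Fin 2)), BoundedDensity S → ∀ A : ℝ,
        ∃ K : Set (EuclideanSpace ℝ (Fin 2)), Convex ℝ K ∧ Bornology.IsBounded K ∧
          ENNReal.ofReal A ≤ volume K ∧ Disjoint K S,
      ∀ c A : ℝ, ∃ N : ℝ, 0 < N ∧ ∀ S : Set (EuclideanSpace ℝ (Fin 2)), Sparse c S →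
        MissedIn N A S,
      ∀ S : Set (EuclideanSpace ℝ (Fin 2)), BoundedDensity S → ∀ A : ℝ,
        volume (GoodSlopes S A) = 0,
      ∀ S : Set (EuclideanSpace ℝ (Fin 2)), BoundedDensity S → ∀ A : ℝ,
        interior (GoodSlopes S A) = ∅,
      ∀ S : Set (EuclideanSpace ℝ (Fin 2)), BoundedDensity S → ∀ A : ℝ,
        ∃ t ∈ T, ∃ (p : EuclideanSpace ℝ (Fin 2)) (L W : ℝ), 0 < W ∧ W ≤ L ∧
          A ≤ (1 + t ^ 2) * L * W ∧ Disjoint (Rect p t L W) S]) ∧
    ¬ UniformlyPorous {t : ℝ | ∃ n : ℕ, 1 ≤ n ∧ t = 1 / n} :=
  ⟨fun _ hT => zero_one hT, not_porous_recips⟩
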