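import Pool.Agent.FS32.Finite

/-!
# Danzer's problem at a finite scale: a growing number of doubly periodic pieces

The plane is `EuclideanSpace ℝ (Fin 2)`; no definition beyond Mathlib is used in the statement.
In a closed disk of radius `r` the set `S` is covered by an exceptional set `E` with at most
`r ^ 2 / (2 * A)` points in the disk, a set `G` each point of which has another point of `G` at
distance at most `C` behind it in the fixed direction `e`, and `k` doubly periodic sets `F i` with
cells of area at most `V` and of any shape; `G` and the `F i` have together at most `D * r ^ 2`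
points in the disk. If `r ≥ C * (10 ^ 4 * D ^ 2 * A * V) ^ 2 ^ k` then a compact convex set of area
`A` inside the disk contains no point of `S`.
-/

set_option autoImplicit false

open MeasureTheory Metric

namespace Pool.Agent.Results.MP_cbbe99_co.GrowingUnions

/-- Danzer's problem (Q1) at a finite scale, with an explicit scale, for unions of `k` doubly
periodic sets, a set with bounded gaps in one direction, and a sparse exceptional set. -/
theorem result (k : ℕ) (A C D V r : ℝ) (hA : 1 ≤ A) (hC : 1 ≤ C) (hD : 1 ≤ D) (hV : 1 ≤ V)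
    (hr : C * (10 ^ 4 * D ^ 2 * A * V) ^ 2 ^ k ≤ r)
    (x : EuclideanSpace ℝ (Fin 2)) (S E G : Set (EuclideanSpace ℝ (Fin 2)))
    (F : Fin k → Set (EuclideanSpace ℝ (Fin 2)))
    (hS : S ∩ closedBall x r ⊆ E ∪ G ∪ ⋃ i, F i)
    -- the exceptional set
    (hE : (E ∩ closedBall x r).Finite)
    (hEn : ((E ∩ closedBall x r).ncard : ℝ) ≤ r ^ 2 / (2 * A))
    -- the set with gaps at most `C` in the direction `e`
    (e : EuclideanSpace ℝ (Fin 2)) (he : ‖e‖ = 1)
    (hG : ∀ p ∈ G, ∃ c : ℝ, 0 < c ∧ c ≤ C ∧ p - c • e ∈ G)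
    -- the doubly periodic sets
    (a b : Fin k → EuclideanSpace ℝ (Fin 2))
    (hab : ∀ i, a i 0 * b i 1 - a i 1 * b i 0 ≠ 0)
    (habV : ∀ i, |a i 0 * b i 1 - a i 1 * b i 0| ≤ V)
    (hFa : ∀ i p, p ∈ F i ↔ p + a i ∈ F i) (hFb : ∀ i p, p ∈ F i ↔ p + b i ∈ F i)
    -- the number of points
    (hGf : (G ∩ closedBall x r).Finite) (hFf : ∀ i, (F i ∩ closedBall x r).Finite)
    (hD' : ((G ∩ closedBall x r).ncard : ℝ) + ∑ i, ((F i ∩ closedBall x r).ncard : ℝ) ≤
      D * r ^ 2) :
    ∃ K : Set (EuclideanSpace ℝ (Fin 2)), Convex ℝ K ∧ IsCompact K ∧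
      volume K = ENNReal.ofReal A ∧ K ⊆ closedBall x r ∧ Disjoint K S :=
  Pool.Agent.FS32.finite_scale k A C D V r hA hC hD hV hr x S E G F e a b he hG hab habV
    hFa hFb hS hE hGf hFf hEn hD'

end Pool.Agent.Results.MP_cbbe99_co.GrowingUnions
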